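import Mathlib
import Pool.Agent.H.MP_9a43b6_co.A

set_option autoImplicit false

namespace Pool.Agent.Results.MP_9a43b6_co.Yes

universe u

theorem result (T : Type u) [BooleanAlgebra T] (C : Set T) (hC : IsChain (· ≤ ·) C)
    (hgen : BooleanSubalgebra.closure C = ⊤) :
    ∃ φ : {S : Sublattice T // (S : Set T).Nonempty} → T,
      (∀ S S' : {S : Sublattice T // (S : Set T).Nonempty},
        (∀ x ∈ S.1, ∀ x' ∈ S'.1, x ⊓ x' ∈ S.1 ∧ x ⊔ x' ∈ S'.1) → φ S ≤ φ S') ∧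
      ∀ S, φ S ∈ S.1 := by
  obtain ⟨φ, h1, h2⟩ := Pool.Agent.H.MP_9a43b6_co.main C hC hgen
  exact ⟨fun S => φ S.1 S.2, fun S S' h => h2 _ _ _ _ h, fun S => h1 _ _⟩

end Pool.Agent.Results.MP_9a43b6_co.Yes
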